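import Pool.Agent.KK.StmtsE

/-! MP_747bc0_co, squad KK, block E, row E_DEG (StmtE04): degenerate tuples are few. -/

set_option autoImplicit false

namespace Pool.Agent.KK.E.H39

section tools

variable {V : Type} [Fintype V] [DecidableEq V]

/-- one coordinate -/
theorem dens_unit_le (A W : Finset V) (hA : A.Nonempty) :
    dens (fun _ : Unit => A) (fun g => g () ∈ W) ≤ (W.card : ℝ) / (A.card : ℝ) := by
  unfold dens
  rw [Finset.prod_const, Finset.card_univ, Fintype.card_unit, pow_one]
  apply div_le_div_of_nonneg_right _ (by positivity)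
  have h1 : ({f : Unit → V | (∀ i, f i ∈ A) ∧ f () ∈ W}).ncard ≤ (W : Set V).ncard := by
    apply Set.ncard_le_ncard_of_injOn (fun f => f ()) (fun f hf => hf.2) _ (Set.toFinite _)
    intro f _ g _ h
    funext u
    exact h
  rw [Set.ncard_coe_finset] at h1
  exact_mod_cast h1

/-- two equal coordinates -/
theorem dens_bool_le (A : Bool → Finset V) (hA : ∀ b, (A b).Nonempty) :
    dens A (fun g => g true = g false) ≤ 1 / ((A true).card : ℝ) := by
  unfold dens
  rw [Fintype.prod_bool]
  have h1 : ({f : Bool → V | (∀ i, f i ∈ A i) ∧ f true = f false}).ncard ≤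
      ((A false : Finset V) : Set V).ncard := by
    apply Set.ncard_le_ncard_of_injOn (fun f => f false) (fun f hf => hf.1 false) _
      (Set.toFinite _)
    intro f hf g hg h
    funext b
    cases b
    · exact h
    · exact hf.2.trans (h.trans hg.2.symm)
  rw [Set.ncard_coe_finset] at h1
  have h2 : (0 : ℝ) < (A true).card := by exact_mod_cast (hA true).card_pos
  have h3 : (0 : ℝ) < (A false).card := by exact_mod_cast (hA false).card_pos
  rw [div_le_div_iff₀ (by positivity) h2, one_mul]
  have h4 : (({f : Bool → V | (∀ i, f i ∈ A i) ∧ f true = f false}).ncard : ℝ) ≤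
      (A false).card := by exact_mod_cast h1
  calc _ ≤ ((A false).card : ℝ) * (A true).card := by gcongr
    _ = _ := by ring

end tools

/-- row E_DEG; the hypothesis `StmtE03` is not needed -/
theorem e_deg (e01 : StmtE01) (e02 : StmtE02) : StmtE04 := by
  intro V _ _ ι _ X W l o hn hX ho
  classical
  have hn' : (0 : ℝ) < Fintype.card V := by exact_mod_cast hn
  have hcard : ∀ b, (0 : ℝ) < (sd X b).card := by
    intro b
    have := hX b
    linarith
  have hsd : ∀ b, (sd X b).Nonempty := by
    intro b
    rw [← Finset.card_pos]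
    exact_mod_cast hcard b
  have hc : ∀ i, (bx X l o i).Nonempty := by
    intro i
    unfold bx
    cases h : o i with
    | none => exact hsd _
    | some v => exact Finset.singleton_nonempty v
  have hnone : ∀ i, o i = none → bx X l o i = sd X (l i) := by
    intro i h
    unfold bx
    rw [h]
    rfl
  have hsome : ∀ i v, o i = some v → bx X l o i = {v} := by
    intro i v h
    unfold bx
    rw [h]
    rfl
  obtain ⟨h0, hmono, -, -, -, hun⟩ := e01 V ι (bx X l o) hc
  have hempty : ∀ P : (ι → V) → Prop, (∀ f, (∀ i, f i ∈ bx X l o i) → ¬ P f) →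
      dens (bx X l o) P = 0 := by
    intro P hP
    unfold dens
    have h1 : {f : ι → V | (∀ i, f i ∈ bx X l o i) ∧ P f} = ∅ := by
      ext f
      simp only [Set.mem_setOf_eq, Set.mem_empty_iff_false, iff_false, not_and]
      exact hP f
    rw [h1]
    simp
  -- the first kind of events
  have hE1 : ∀ i, dens (bx X l o) (fun f => o i = none ∧ f i ∈ W) ≤
      3 * (W.card : ℝ) / Fintype.card V := by
    intro i
    by_cases h : o i = none
    · have h1 := e02 V ι Unit (bx X l o) (fun _ => i) hc (fun _ _ _ => rfl)
        (fun g => g () ∈ W)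
      have h2 : dens (bx X l o) (fun f => o i = none ∧ f i ∈ W) ≤
          dens (bx X l o) (fun f => (f ∘ fun _ : Unit => i) () ∈ W) :=
        hmono _ _ (fun f _ hf => hf.2)
      have h3 : (bx X l o ∘ fun _ : Unit => i) = fun _ : Unit => sd X (l i) := by
        funext u
        exact hnone i h
      rw [h1, h3] at h2
      refine h2.trans ((dens_unit_le _ W (hsd _)).trans ?_)
      rw [div_le_div_iff₀ (hcard _) hn']
      have h4 := hX (l i)
      have h5 : (0 : ℝ) ≤ W.card := by positivity
      nlinarith
    · rw [hempty _ (fun f _ hf => h hf.1)]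
      positivity
  -- the second kind of events
  have hgen : ∀ i i', i ≠ i' → o i = none →
      dens (bx X l o) (fun f => f i = f i') ≤ 3 / Fintype.card V := by
    intro i i' hii h
    let φ : Bool → ι := fun b => if b = true then i else i'
    have hφt : φ true = i := rfl
    have hφf : φ false = i' := rfl
    have hφ : Function.Injective φ := by
      intro a b hab
      cases a <;> cases b
      · rfl
      · exact absurd hab.symm hii
      · exact absurd hab hii
      · rfl
    have h1 := e02 V ι Bool (bx X l o) φ hc hφ (fun g => g true = g false)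
    have h2 : dens (bx X l o) (fun f => f i = f i') =
        dens (bx X l o) (fun f => (f ∘ φ) true = (f ∘ φ) false) := rfl
    rw [h2, h1]
    refine (dens_bool_le _ (fun b => hc (φ b))).trans ?_
    have h3 : bx X l o (φ true) = sd X (l i) := hnone i h
    rw [h3, div_le_div_iff₀ (hcard _) hn', one_mul]
    exact hX (l i)
  have hE2 : ∀ x : ι × ι, dens (bx X l o) (fun f => x.1 ≠ x.2 ∧ f x.1 = f x.2) ≤
      3 / Fintype.card V := by
    rintro ⟨i, i'⟩
    show dens (bx X l o) (fun f => i ≠ i' ∧ f i = f i') ≤ _
    by_cases hii : i = i'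
    · rw [hempty _ (fun f _ hf => hf.1 hii)]
      positivity
    · by_cases h : o i = none
      · exact (hmono _ _ (fun f _ hf => hf.2)).trans (hgen i i' hii h)
      · by_cases h' : o i' = none
        · exact (hmono _ (fun f => f i' = f i) (fun f _ hf => hf.2.symm)).trans
            (hgen i' i (fun h => hii h.symm) h')
        · obtain ⟨v, hv⟩ := Option.ne_none_iff_exists'.1 h
          obtain ⟨v', hv'⟩ := Option.ne_none_iff_exists'.1 h'
          rw [hempty _ (fun f hf hf' => ?_)]
          · positivity
          · have h1 := hf i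
            have h2 := hf i'
            rw [hsome i v hv, Finset.mem_singleton] at h1
            rw [hsome i' v' hv', Finset.mem_singleton] at h2
            have h3 : v = v' := by rw [← h1, ← h2]; exact hf'.2
            rw [← h3] at hv'
            exact hii (ho i i' v hv hv')
  -- union bound
  let P : ι ⊕ (ι × ι) → (ι → V) → Prop := fun t f =>
    Sum.elim (fun i => o i = none ∧ f i ∈ W) (fun x : ι × ι => x.1 ≠ x.2 ∧ f x.1 = f x.2) t
  have h1 : dens (bx X l o) (fun f => ¬ (Function.Injective f ∧ ∀ i, o i = none → f i ∉ W)) ≤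
      dens (bx X l o) (fun f => ∃ t, P t f) := by
    apply hmono
    intro f _ hf
    by_contra hno
    apply hf
    refine ⟨?_, ?_⟩
    · intro i i' hii
      by_contra hne
      exact hno ⟨Sum.inr (i, i'), hne, hii⟩
    · intro i hi hW
      exact hno ⟨Sum.inl i, hi, hW⟩
  refine h1.trans ((hun _ P).trans ?_)
  rw [Fintype.sum_sum_type]
  have h2 : ∑ i : ι, dens (bx X l o) (P (Sum.inl i)) ≤
      (Fintype.card ι : ℝ) * (3 * (W.card : ℝ) / Fintype.card V) := by
    refine (Finset.sum_le_sum (fun i _ => hE1 i)).trans (le_of_eq ?_)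
    rw [Finset.sum_const, Finset.card_univ, nsmul_eq_mul]
  have h3 : ∑ x : ι × ι, dens (bx X l o) (P (Sum.inr x)) ≤
      (Fintype.card ι : ℝ) * (Fintype.card ι : ℝ) * (3 / Fintype.card V) := by
    refine (Finset.sum_le_sum (fun x _ => hE2 x)).trans (le_of_eq ?_)
    rw [Finset.sum_const, Finset.card_univ, nsmul_eq_mul, Fintype.card_prod]
    push_cast
    ring
  refine (add_le_add h2 h3).trans (le_of_eq ?_)
  ring

end Pool.Agent.KK.E.H39
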