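import Pool.Agent.KK.StmtsE

/-! MP_747bc0_co, squad KK, block E, row E_OFN (StmtE16). -/

set_option autoImplicit false

namespace Pool.Agent.KK.E.H39

/-- row E_OFN -/
theorem e_ofn : StmtE16 := by
  intro V _ _ H k m f hf hw
  refine ⟨List.nodup_ofFn.2 hf, ?_⟩
  rintro s ⟨t, u, h⟩ hs
  have hlen : t.length + s.length + u.length = m := by
    have h1 := congrArg List.length h
    rw [List.length_append, List.length_append, List.length_ofFn] at h1
    exact h1
  have hget : ∀ (j : ℕ) (hj : j < s.length), ∃ hm : t.length + j < m,
      s[j] = f ⟨t.length + j, hm⟩ := by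
    intro j hj
    have hm : t.length + j < m := by omega
    refine ⟨hm, ?_⟩
    have h1 : (List.ofFn f)[t.length + j]? = some (f ⟨t.length + j, hm⟩) := by
      rw [List.getElem?_eq_getElem (by rw [List.length_ofFn]; exact hm), List.getElem_ofFn]
    rw [← h, List.append_assoc, List.getElem?_append_right (by omega),
      Nat.add_sub_cancel_left, List.getElem?_append_left hj, List.getElem?_eq_getElem hj] at h1
    exact Option.some.inj h1
  have h2 := hw t.length (by omega)
  have h3 : s.toFinset =
      (Finset.univ.filter fun i : Fin m => t.length ≤ (i : ℕ) ∧ (i : ℕ) < t.length + k).image f := by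
    ext v
    rw [List.mem_toFinset, Finset.mem_image]
    constructor
    · intro hv
      obtain ⟨j, hj, rfl⟩ := List.mem_iff_getElem.1 hv
      obtain ⟨hm, h4⟩ := hget j hj
      refine ⟨⟨t.length + j, hm⟩, ?_, h4.symm⟩
      rw [Finset.mem_filter]
      exact ⟨Finset.mem_univ _, by simp, by simp; omega⟩
    · rintro ⟨i, hi, rfl⟩
      rw [Finset.mem_filter] at hi
      obtain ⟨-, h4, h5⟩ := hi
      have hj : (i : ℕ) - t.length < s.length := by omega
      obtain ⟨hm, h6⟩ := hget _ hj
      have h7 : (⟨t.length + ((i : ℕ) - t.length), hm⟩ : Fin m) = i := by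
        apply Fin.ext
        simp only
        omega
      rw [h7] at h6
      rw [← h6]
      exact List.getElem_mem hj
  rw [h3]
  exact h2

end Pool.Agent.KK.E.H39
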