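import Pool.Agent.KK.StmtsB

/-! MP_747bc0_co, squad KK, block B, row LEV: typical points of every level. -/

set_option autoImplicit false

namespace Pool.Agent.KK.B.H39

open Function
open scoped Classical

/-- row B_LEV -/
theorem lev_row : LevStmt := by
  intro k V _ G δ s hδ
  induction s with
  | zero =>
    rw [pow_zero, one_mul]
    exact le_of_eq rfl
  | succ s ih =>
    have h1 : ∀ m : Fin k, dens (fun a : Fin k → V =>
        δ < dens (fun z => ¬ lev δ G s (update a m z))) ≤
        dens (fun a => ¬ lev δ G s a) / δ := by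
      intro m
      rw [le_div_iff₀ hδ]
      refine (markov (fun (a : Fin k → V) (z : V) => ¬ lev δ G s (update a m z)) δ).trans ?_
      exact le_of_eq (dens_update m (fun a => ¬ lev δ G s a))
    have h2 : dens (fun a => ¬ lev δ G (s + 1) a) ≤ dens (fun a => ¬ lev δ G s a) +
        dens (fun a : Fin k → V => ∃ m : Fin k, δ < dens (fun z => ¬ lev δ G s (update a m z))) := by
      refine (dens_mono (fun a ha => ?_)).trans (dens_or_le _ _)
      by_cases h : lev δ G s a
      · right
        by_contra hno
        apply ha
        refine ⟨h, fun m => ?_⟩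
        by_contra hm
        exact hno ⟨m, lt_of_not_ge hm⟩
      · exact Or.inl h
    have h3 : dens (fun a : Fin k → V => ∃ m : Fin k,
        δ < dens (fun z => ¬ lev δ G s (update a m z))) ≤
        (k : ℝ) * (dens (fun a => ¬ lev δ G s a) / δ) := by
      refine (dens_exists_le (fun (m : Fin k) (a : Fin k → V) =>
        δ < dens (fun z => ¬ lev δ G s (update a m z)))).trans ?_
      refine (Finset.sum_le_sum (fun m _ => h1 m)).trans ?_
      rw [Finset.sum_const, Finset.card_univ, Fintype.card_fin, nsmul_eq_mul]
    have h4 : 0 ≤ 1 + (k : ℝ) / δ := by positivity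
    calc dens (fun a => ¬ lev δ G (s + 1) a) ≤ dens (fun a => ¬ lev δ G s a) +
          (k : ℝ) * (dens (fun a => ¬ lev δ G s a) / δ) := h2.trans (by linarith)
      _ = (1 + (k : ℝ) / δ) * dens (fun a => ¬ lev δ G s a) := by ring
      _ ≤ (1 + (k : ℝ) / δ) * ((1 + (k : ℝ) / δ) ^ s * dens (fun a => ¬ G a)) :=
          mul_le_mul_of_nonneg_left ih h4
      _ = _ := by ring

end Pool.Agent.KK.B.H39
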