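import Pool.Agent.KK.StmtsB

/-! MP_747bc0_co, squad KK, block B, row RES: resampling. -/

set_option autoImplicit false

namespace Pool.Agent.KK.B.H39

open Function
open scoped Classical

section general

variable {α β : Type*} [Fintype α] [Fintype β]

theorem dens_swap (Q : α → β → Prop) :
    dens (fun x : α × β => Q x.1 x.2) = dens (fun x : β × α => Q x.2 x.1) :=
  dens_equiv (Equiv.prodComm α β) (fun x : β × α => Q x.2 x.1)

theorem dens_snd (P : β → Prop) [Nonempty α] : dens (fun x : α × β => P x.2) = dens P := by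
  rw [dens_swap (fun (_ : α) (b : β) => P b)]
  exact dens_fst P

theorem dens_mul (A : α → Prop) (B : β → Prop) :
    dens (fun x : α × β => A x.1 ∧ B x.2) = dens A * dens B := by
  rw [dens_prod (fun a b => A a ∧ B b)]
  have h : ∀ a : α, dens (fun b : β => A a ∧ B b) = if A a then dens B else 0 := by
    intro a
    by_cases h : A a
    · rw [if_pos h]
      exact dens_congr (fun b => by simp [h])
    · rw [if_neg h, ← dens_false (α := β)]
      exact dens_congr (fun b => by simp [h])
  rw [Finset.sum_congr rfl (fun a _ => h a), ← Finset.sum_filter, Finset.sum_const, nsmul_eq_mul]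
  unfold dens
  ring

end general

section tuples

variable {k : ℕ} {V : Type} [Fintype V]

/-- the marginal of one coordinate -/
theorem dens_coord [Nonempty V] (l : Fin k) (P : V → Prop) :
    dens (fun a : Fin k → V => P (a l)) = dens P := by
  rw [← dens_update l (fun a : Fin k → V => P (a l))]
  have h : dens (fun x : (Fin k → V) × V => P (update x.1 l x.2 l)) =
      dens (fun x : (Fin k → V) × V => P x.2) := dens_congr (fun x => by rw [update_self])
  rw [h]
  exact dens_snd P

/-- resampling one coordinate of the first point -/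
theorem dens_pair (l : Fin k) (Q : (Fin k → V) → V → Prop) :
    dens (fun x : (Fin k → V) × V => Q x.1 x.2) =
      dens (fun x : (Fin k → V) × (V × V) => Q (update x.1 l x.2.1) x.2.2) := by
  have h1 : dens (fun x : (Fin k → V) × (V × V) => Q (update x.1 l x.2.1) x.2.2) =
      dens (fun x : V × ((Fin k → V) × V) => Q (update x.2.1 l x.2.2) x.1) := by
    let e : ((Fin k → V) × (V × V)) ≃ (V × ((Fin k → V) × V)) :=
      { toFun := fun x => (x.2.2, (x.1, x.2.1))
        invFun := fun x => (x.2.1, (x.2.2, x.1))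
        left_inv := fun x => rfl
        right_inv := fun x => rfl }
    exact dens_equiv e (fun x : V × ((Fin k → V) × V) => Q (update x.2.1 l x.2.2) x.1)
  rw [h1, dens_swap, dens_prod (fun (z : V) (a : Fin k → V) => Q a z),
    dens_prod (fun (z : V) (x : (Fin k → V) × V) => Q (update x.1 l x.2) z)]
  congr 1
  refine Finset.sum_congr rfl (fun z _ => ?_)
  exact (dens_update l (fun a => Q a z)).symm

/-- exceptional set -/
theorem dens_exc [Nonempty V] {φ X Ex : V → Prop} {κ : ℝ} (hE : dens Ex ≤ κ)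
    (h : ∀ y z, (X y ↔ X z) → ¬ (φ y ↔ φ z) → Ex y ∨ Ex z) :
    dens (fun x : V × V => (X x.1 ↔ X x.2) ∧ ¬ (φ x.1 ↔ φ x.2)) ≤ 2 * κ := by
  refine (dens_mono (Q := fun x : V × V => Ex x.1 ∨ Ex x.2)
    (fun x hx => h x.1 x.2 hx.1 hx.2)).trans ((dens_or_le _ _).trans ?_)
  rw [dens_fst, dens_snd]
  linarith

theorem dens_line [Nonempty V] {φ X : V → Prop} {κ : ℝ}
    (h : dens φ ≤ κ ∨ dens (fun z => ¬ φ z) ≤ κ ∨ pm κ φ X) :
    dens (fun x : V × V => (X x.1 ↔ X x.2) ∧ ¬ (φ x.1 ↔ φ x.2)) ≤ 2 * κ := by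
  rcases h with h | h | h | h
  · exact dens_exc h (fun y z _ h2 => by tauto)
  · exact dens_exc h (fun y z _ h2 => by
      show ¬ φ y ∨ ¬ φ z
      tauto)
  · exact dens_exc h (fun y z h1 h2 => by
      show ¬ (φ y ↔ X y) ∨ ¬ (φ z ↔ X z)
      tauto)
  · exact dens_exc h (fun y z h1 h2 => by
      show ¬ (φ y ↔ ¬ X y) ∨ ¬ (φ z ↔ ¬ X z)
      tauto)

/-- claim 1 -/
theorem claim1 [Nonempty V] {X : V → Prop} {D : Fin k → (Fin k → V) → Prop} {κ : ℝ}
    (hκ : 0 ≤ κ) (hI : Indep D) (hL : dens (fun a => ¬ LineDet κ X D a) ≤ κ) (i l : Fin k) :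
    dens (fun x : (Fin k → V) × V =>
      (X (x.1 l) ↔ X x.2) ∧ ¬ (D i x.1 ↔ D i (update x.1 l x.2))) ≤ 3 * κ := by
  by_cases hil : i = l
  · subst hil
    have h : dens (fun x : (Fin k → V) × V =>
        (X (x.1 i) ↔ X x.2) ∧ ¬ (D i x.1 ↔ D i (update x.1 i x.2))) = 0 := by
      rw [← dens_false (α := (Fin k → V) × V)]
      refine dens_congr (fun x => ?_)
      constructor
      · intro hx
        exact hx.2 (hI i x.1 x.2).symm
      · intro hx
        exact hx.elim
    rw [h]
    linarith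
  · rw [dens_pair l (fun (a : Fin k → V) (z : V) =>
      (X (a l) ↔ X z) ∧ ¬ (D i a ↔ D i (update a l z)))]
    have h1 : dens (fun x : (Fin k → V) × (V × V) =>
        (X (update x.1 l x.2.1 l) ↔ X x.2.2) ∧
          ¬ (D i (update x.1 l x.2.1) ↔ D i (update (update x.1 l x.2.1) l x.2.2))) ≤
        dens (fun x : (Fin k → V) × (V × V) => ¬ LineDet κ X D x.1) +
        dens (fun x : (Fin k → V) × (V × V) => LineDet κ X D x.1 ∧ ((X x.2.1 ↔ X x.2.2) ∧
          ¬ (D i (update x.1 l x.2.1) ↔ D i (update x.1 l x.2.2)))) := by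
      refine (dens_mono (fun x hx => ?_)).trans (dens_or_le _ _)
      by_cases h : LineDet κ X D x.1
      · right
        rw [update_self, update_idem] at hx
        exact ⟨h, hx⟩
      · exact Or.inl h
    refine h1.trans ?_
    have h2 : dens (fun x : (Fin k → V) × (V × V) => ¬ LineDet κ X D x.1) ≤ κ := by
      rw [dens_fst (β := V × V) (fun a : Fin k → V => ¬ LineDet κ X D a)]
      exact hL
    have h3 : dens (fun x : (Fin k → V) × (V × V) => LineDet κ X D x.1 ∧ ((X x.2.1 ↔ X x.2.2) ∧
          ¬ (D i (update x.1 l x.2.1) ↔ D i (update x.1 l x.2.2)))) ≤ 2 * κ := by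
      refine dens_prod_le (Q := fun (a : Fin k → V) (y : V × V) => LineDet κ X D a ∧
        ((X y.1 ↔ X y.2) ∧ ¬ (D i (update a l y.1) ↔ D i (update a l y.2)))) (by linarith) ?_
      intro a
      by_cases h : LineDet κ X D a
      · refine (dens_mono (fun y hy => hy.2)).trans ?_
        exact dens_line (φ := fun z => D i (update a l z)) (h i l hil)
      · refine (dens_mono (Q := fun _ => False) (fun y hy => h hy.1)).trans ?_
        rw [dens_false]
        linarith
    linarith

/-- the mixture of two points -/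
def pw (M : Finset (Fin k)) (a a' : Fin k → V) : Fin k → V := fun x => if x ∈ M then a' x else a x

theorem pw_pw (M : Finset (Fin k)) (a a' : Fin k → V) : pw M (pw M a a') (pw M a' a) = a := by
  funext x
  unfold pw
  by_cases h : x ∈ M <;> simp [h]

theorem pw_insert {M : Finset (Fin k)} {l : Fin k} (a a' : Fin k → V) :
    pw (insert l M) a a' = update (pw M a a') l (a' l) := by
  funext x
  unfold pw
  by_cases h : x = l
  · subst h
    simp
  · rw [update_of_ne h]
    simp [h]

theorem pw_apply {M : Finset (Fin k)} {l : Fin k} (hl : l ∉ M) (a a' : Fin k → V) :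
    pw M a a' l = a l := by
  unfold pw
  simp [hl]

/-- claim 2 -/
theorem claim2 [Nonempty V] {X : V → Prop} {D : Fin k → (Fin k → V) → Prop} {κ : ℝ}
    (hκ : 0 ≤ κ) (hI : Indep D) (hL : dens (fun a => ¬ LineDet κ X D a) ≤ κ) (i : Fin k)
    (M : Finset (Fin k)) :
    dens (fun x : (Fin k → V) × (Fin k → V) =>
      (∀ l ∈ M, (X (x.1 l) ↔ X (x.2 l))) ∧ ¬ (D i x.1 ↔ D i (pw M x.1 x.2))) ≤
      3 * κ * M.card := by
  induction M using Finset.induction_on with
  | empty =>
    have h : dens (fun x : (Fin k → V) × (Fin k → V) =>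
        (∀ l ∈ (∅ : Finset (Fin k)), (X (x.1 l) ↔ X (x.2 l))) ∧
          ¬ (D i x.1 ↔ D i (pw ∅ x.1 x.2))) = 0 := by
      rw [← dens_false (α := (Fin k → V) × (Fin k → V))]
      refine dens_congr (fun x => ?_)
      constructor
      · intro hx
        apply hx.2
        have : pw ∅ x.1 x.2 = x.1 := by
          funext y
          unfold pw
          simp
        rw [this]
      · intro hx
        exact hx.elim
    rw [h]
    simp
  | insert l M hl ih =>
    have h1 : dens (fun x : (Fin k → V) × (Fin k → V) =>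
        (∀ l' ∈ insert l M, (X (x.1 l') ↔ X (x.2 l'))) ∧
          ¬ (D i x.1 ↔ D i (pw (insert l M) x.1 x.2))) ≤
        dens (fun x : (Fin k → V) × (Fin k → V) =>
          (∀ l ∈ M, (X (x.1 l) ↔ X (x.2 l))) ∧ ¬ (D i x.1 ↔ D i (pw M x.1 x.2))) +
        dens (fun x : (Fin k → V) × (Fin k → V) =>
          (X (pw M x.1 x.2 l) ↔ X (x.2 l)) ∧
            ¬ (D i (pw M x.1 x.2) ↔ D i (update (pw M x.1 x.2) l (x.2 l)))) := by
      refine (dens_mono (fun x hx => ?_)).trans (dens_or_le _ _)
      by_cases h : D i x.1 ↔ D i (pw M x.1 x.2)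
      · right
        refine ⟨?_, ?_⟩
        · rw [pw_apply hl]
          exact hx.1 l (Finset.mem_insert_self _ _)
        · have h2 := hx.2
          rw [pw_insert] at h2
          intro h3
          exact h2 (h.trans h3)
      · left
        exact ⟨fun l' hl' => hx.1 l' (Finset.mem_insert_of_mem hl'), h⟩
    have h2 : dens (fun x : (Fin k → V) × (Fin k → V) =>
          (X (pw M x.1 x.2 l) ↔ X (x.2 l)) ∧
            ¬ (D i (pw M x.1 x.2) ↔ D i (update (pw M x.1 x.2) l (x.2 l)))) =
        dens (fun x : (Fin k → V) × (Fin k → V) =>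
          (X (x.1 l) ↔ X (x.2 l)) ∧ ¬ (D i x.1 ↔ D i (update x.1 l (x.2 l)))) := by
      let e : ((Fin k → V) × (Fin k → V)) ≃ ((Fin k → V) × (Fin k → V)) :=
        { toFun := fun x => (pw M x.1 x.2, pw M x.2 x.1)
          invFun := fun x => (pw M x.1 x.2, pw M x.2 x.1)
          left_inv := fun x => Prod.ext (pw_pw M x.1 x.2) (pw_pw M x.2 x.1)
          right_inv := fun x => Prod.ext (pw_pw M x.1 x.2) (pw_pw M x.2 x.1) }
      have h3 := dens_equiv e (fun x : (Fin k → V) × (Fin k → V) =>
          (X (x.1 l) ↔ X (x.2 l)) ∧ ¬ (D i x.1 ↔ D i (update x.1 l (x.2 l))))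
      rw [← h3]
      refine dens_congr (fun x => ?_)
      show _ ↔ (X (pw M x.1 x.2 l) ↔ X (pw M x.2 x.1 l)) ∧
        ¬ (D i (pw M x.1 x.2) ↔ D i (update (pw M x.1 x.2) l (pw M x.2 x.1 l)))
      rw [pw_apply hl x.2 x.1]
    have h3 : dens (fun x : (Fin k → V) × (Fin k → V) =>
          (X (x.1 l) ↔ X (x.2 l)) ∧ ¬ (D i x.1 ↔ D i (update x.1 l (x.2 l)))) =
        dens (fun x : (Fin k → V) × V =>
          (X (x.1 l) ↔ X x.2) ∧ ¬ (D i x.1 ↔ D i (update x.1 l x.2))) := by
      rw [dens_prod (fun (a a' : Fin k → V) =>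
          (X (a l) ↔ X (a' l)) ∧ ¬ (D i a ↔ D i (update a l (a' l)))),
        dens_prod (fun (a : Fin k → V) (z : V) =>
          (X (a l) ↔ X z) ∧ ¬ (D i a ↔ D i (update a l z)))]
      congr 1
      refine Finset.sum_congr rfl (fun a _ => ?_)
      exact dens_coord l (fun z => (X (a l) ↔ X z) ∧ ¬ (D i a ↔ D i (update a l z)))
    have h4 := claim1 hκ hI hL i l
    rw [h2, h3] at h1
    refine h1.trans ?_
    rw [Finset.card_insert_of_notMem hl]
    push_cast
    linarith

end tuples

/-- row B_RES -/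
theorem res_row : ResStmt := by
  intro k V _ _ X D κ ν hκ hν h3 hI hL i W
  by_contra hno
  rw [not_or, not_le, not_le] at hno
  obtain ⟨h1, h2⟩ := hno
  have h4 := claim2 hκ hI hL i Finset.univ
  have h5 : dens (fun a => D i a ∧ wd X W a) * dens (fun a => ¬ D i a ∧ wd X W a) ≤
      3 * κ * k := by
    rw [← dens_mul]
    refine (dens_mono (fun x hx => ?_)).trans (h4.trans (le_of_eq ?_))
    · refine ⟨fun l _ => (hx.1.2 l).trans (hx.2.2 l).symm, ?_⟩
      have h6 : pw Finset.univ x.1 x.2 = x.2 := by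
        funext y
        unfold pw
        simp
      rw [h6]
      intro h7
      exact hx.2.1 (h7.1 hx.1.1)
    · rw [Finset.card_univ, Fintype.card_fin]
  have h6 : ν * ν < dens (fun a => D i a ∧ wd X W a) * dens (fun a => ¬ D i a ∧ wd X W a) :=
    mul_lt_mul'' h1 h2 hν hν
  nlinarith

end Pool.Agent.KK.B.H39
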